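import Pool.Agent.Helper606_LR.Main
import Pool.Agent.Helper606_LR.Count
import Pool.Agent.Helper606_LR.Dens

/-!
# The Lang–Rohrlich inequality for the Gamma values `Γ(a / q)`, `a` prime to `q`, fails for almost all `q`

Let `F_q` be the field generated by `π` and the numbers `Γ(a / q)`, `1 ≤ a ≤ q - 1`, `gcd(a, q) = 1`. The posed inequality is
`tr.deg F_q ≥ 1 + φ(q) / 2` for every `q > 2`. It is false: for example
`Γ(1/14) Γ(9/14) Γ(11/14) = 4 π ^ (3/2)`, so that `tr.deg F_14 ≤ 3`.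

In general let `χ` run over the odd Dirichlet characters modulo `q`, let `χ*` be the primitive character of `χ`, and let
`N(q)` be the number of those `χ` with `χ*(p) ≠ 1` for all primes `p` dividing `q`. The reflection formula and Gauss's
multiplication formula give `tr.deg F_q ≤ 1 + N(q)`. Here `N(q) ≤ φ(q) / 2`, and `N(q) < φ(q) / 2` if and only if for some
prime divisor `p` of `q` the residue class of `-1` modulo the part of `q` prime to `p` is not a power of `p`. By quadratic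
reciprocity this is so for all `q` with two different prime divisors congruent to `3` modulo `4`, hence for all `q` outside
a set of density zero.

Proof. Let `V` be the quotient of `ℝ` by the space of the logarithms of the positive numbers which are algebraic over `ℚ(π)`.
The class `g(x)` of `log Γ(x)` in `V`, `x` a rational number modulo `1`, is odd and satisfies the distribution relations
`g(x) = ∑ g((x + j) / m)`. For a prime `p` dividing `q = p ^ k m` these relations give that the sum of `ψ(b) g(b / q)` over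
the `b` prime to `q` is zero for all functions `ψ` on the units modulo `m` with `ψ(p b) = ψ(b)`, in particular for the
indicator functions of the level sets of the characters `χ` modulo `q` with `χ*(p) = 1`.
-/

set_option autoImplicit false

open Real Cardinal Filter Topology Pool.Agent.Helper606_LR

namespace Pool.Agent.Results.MP_274814_nt.CoprimeFormFails

/-- The subfield `F_q` of `ℂ` generated by `π` and the numbers `Γ(a / q)`, `1 ≤ a ≤ q - 1`, `gcd(a, q) = 1`. -/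
noncomputable def F (q : ℕ) : IntermediateField ℚ ℂ :=
  IntermediateField.adjoin ℚ
    ({(π : ℂ)} ∪ {z : ℂ | ∃ a : ℕ, 1 ≤ a ∧ a ≤ q - 1 ∧ Nat.gcd a q = 1 ∧ z = Complex.Gamma ((a : ℂ) / (q : ℂ))})

/-- The number `N(q)` of the odd Dirichlet characters `χ` modulo `q` such that the primitive character of `χ` is different
from `1` at all prime divisors of `q`. -/
noncomputable def N (q : ℕ) : ℕ :=
  Nat.card {χ : DirichletCharacter ℂ q // χ.Odd ∧ ∀ p : ℕ, p.Prime → p ∣ q → χ.primitiveCharacter p ≠ 1}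

lemma bound (q : ℕ) (hq : 2 < q) : Algebra.trdeg ℚ (F q) ≤ ((1 + N q : ℕ) : Cardinal) :=
  trdeg_bound q (by omega)

lemma N_le (q : ℕ) (hq : 2 < q) : N q ≤ q.totient / 2 := by
  have : NeZero q := ⟨by omega⟩
  have h1 := card_odd q hq
  have h2 := card_good_le q
  show Nat.card {χ : DirichletCharacter ℂ q // Good q χ} ≤ _
  omega

lemma N_lt_iff (q : ℕ) (hq : 2 < q) : N q < q.totient / 2 ↔
    ∃ p : ℕ, p.Prime ∧ p ∣ q ∧ ∀ j : ℕ, ¬ q / p ^ q.factorization p ∣ p ^ j + 1 := by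
  have : NeZero q := ⟨by omega⟩
  exact card_good_lt_iff' q hq

lemma fails_of (q : ℕ) (hq : 2 < q)
    (h : ∃ p : ℕ, p.Prime ∧ p ∣ q ∧ ∀ j : ℕ, ¬ q / p ^ q.factorization p ∣ p ^ j + 1) :
    Algebra.trdeg ℚ (F q) ≤ ((q.totient / 2 : ℕ) : Cardinal) := by
  have h1 := (N_lt_iff q hq).2 h
  refine (bound q hq).trans ?_
  exact_mod_cast (by omega : 1 + N q ≤ q.totient / 2)

lemma fails_of_two (q : ℕ) (hq : 2 < q)
    (h : ∃ p r : ℕ, p.Prime ∧ r.Prime ∧ p ≠ r ∧ p % 4 = 3 ∧ r % 4 = 3 ∧ p ∣ q ∧ r ∣ q) :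
    Algebra.trdeg ℚ (F q) ≤ ((q.totient / 2 : ℕ) : Cardinal) := by
  have : NeZero q := ⟨by omega⟩
  obtain ⟨p, r, hp, hr, hpr, hp4, hr4, hpq, hrq⟩ := h
  exact fails_of q hq (two_primes q p r hp hr hpr hp4 hr4 hpq hrq)

lemma fourteen : ∃ p : ℕ, p.Prime ∧ p ∣ 14 ∧ ∀ j : ℕ, ¬ 14 / p ^ (14 : ℕ).factorization p ∣ p ^ j + 1 := by
  refine ⟨2, Nat.prime_two, by norm_num, ?_⟩
  have h1 : (14 : ℕ).factorization 2 = 1 := by
    rw [Nat.factorization_def _ Nat.prime_two]
    have : (14 : ℕ) = 2 ^ 1 * 7 := by norm_num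
    rw [this]
    have : Fact (Nat.Prime 2) := ⟨Nat.prime_two⟩
    rw [padicValNat.mul (by norm_num) (by norm_num), padicValNat.prime_pow, padicValNat.eq_zero_of_not_dvd (by norm_num)]
  rw [h1]
  intro j hj
  have h2 : 14 / 2 ^ 1 = 7 := by norm_num
  rw [h2] at hj
  have h3 : 2 ^ j % 7 = 1 ∨ 2 ^ j % 7 = 2 ∨ 2 ^ j % 7 = 4 := by
    clear hj
    induction j with
    | zero => left; norm_num
    | succ j ih =>
      rw [pow_succ, Nat.mul_mod]
      rcases ih with h | h | h <;> rw [h] <;> norm_num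
  omega

theorem result :
    Algebra.trdeg ℚ (F 14) ≤ ((Nat.totient 14 / 2 : ℕ) : Cardinal) ∧
    (∀ q : ℕ, 2 < q → Algebra.trdeg ℚ (F q) ≤ ((1 + N q : ℕ) : Cardinal) ∧ N q ≤ q.totient / 2 ∧
      (N q < q.totient / 2 ↔
        ∃ p : ℕ, p.Prime ∧ p ∣ q ∧ ∀ j : ℕ, ¬ q / p ^ q.factorization p ∣ p ^ j + 1)) ∧
    Tendsto (fun X : ℕ => (Set.ncard {q : ℕ | 2 < q ∧ q ≤ X ∧
      ((1 + q.totient / 2 : ℕ) : Cardinal) ≤ Algebra.trdeg ℚ (F q)} : ℝ) / X) atTop (𝓝 0) := by
  classical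
  have h14 := fails_of 14 (by norm_num) fourteen
  have hno : ∀ q : ℕ, Algebra.trdeg ℚ (F q) ≤ ((q.totient / 2 : ℕ) : Cardinal) →
      ¬ ((1 + q.totient / 2 : ℕ) : Cardinal) ≤ Algebra.trdeg ℚ (F q) := by
    intro q h1 h2
    have h3 := h2.trans h1
    rw [Nat.cast_le] at h3
    omega
  refine ⟨h14, fun q hq => ⟨bound q hq, N_le q hq, N_lt_iff q hq⟩, ?_⟩
  rw [Metric.tendsto_atTop]
  intro ε hε
  obtain ⟨X₀, hX₀⟩ := density_two (ε / 2) (by linarith)
  refine ⟨X₀ + 1, fun X hX => ?_⟩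
  have hX1 : (0 : ℝ) < X := by exact_mod_cast (by omega : 0 < X)
  have h1 := hX₀ X (by omega)
  set S := (Finset.range X).filter fun e => ¬ ∃ p r : ℕ, p.Prime ∧ r.Prime ∧ p ≠ r ∧ p % 4 = 3 ∧ r % 4 = 3 ∧
      p ∣ e + 1 ∧ r ∣ e + 1 with hS
  have h2 : Set.ncard {q : ℕ | 2 < q ∧ q ≤ X ∧ ((1 + q.totient / 2 : ℕ) : Cardinal) ≤ Algebra.trdeg ℚ (F q)} ≤ S.card := by
    have h3 : {q : ℕ | 2 < q ∧ q ≤ X ∧ ((1 + q.totient / 2 : ℕ) : Cardinal) ≤ Algebra.trdeg ℚ (F q)} ⊆
        ((S.image fun e => e + 1 : Finset ℕ) : Set ℕ) := by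
      rintro q ⟨hq1, hq2, hq3⟩
      rw [Finset.mem_coe, Finset.mem_image]
      refine ⟨q - 1, ?_, by omega⟩
      rw [hS, Finset.mem_filter, Finset.mem_range]
      refine ⟨by omega, fun hcon => ?_⟩
      rw [Nat.sub_add_cancel (by omega : 1 ≤ q)] at hcon
      exact hno q (fails_of_two q hq1 hcon) hq3
    calc _ ≤ Set.ncard ((S.image fun e => e + 1 : Finset ℕ) : Set ℕ) := Set.ncard_le_ncard h3 (Finset.finite_toSet _)
      _ = (S.image fun e => e + 1).card := Set.ncard_coe_finset _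
      _ ≤ S.card := Finset.card_image_le
  rw [Real.dist_eq, sub_zero, abs_of_nonneg (by positivity), div_lt_iff₀ hX1]
  have h4 : (Set.ncard {q : ℕ | 2 < q ∧ q ≤ X ∧ ((1 + q.totient / 2 : ℕ) : Cardinal) ≤ Algebra.trdeg ℚ (F q)} : ℝ) ≤ S.card := by
    exact_mod_cast h2
  have h5 : 0 < ε * X := by positivity
  calc (Set.ncard {q : ℕ | 2 < q ∧ q ≤ X ∧ ((1 + q.totient / 2 : ℕ) : Cardinal) ≤ Algebra.trdeg ℚ (F q)} : ℝ) ≤ S.card := h4
    _ ≤ ε / 2 * X := h1
    _ < ε * X := by linarith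

end Pool.Agent.Results.MP_274814_nt.CoprimeFormFails
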